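import Mathlib
import Pool.Agent.helper36.SpanPath

set_option autoImplicit false

namespace Pool.Agent.Results.MP_3b4555_co.AlphaMinEqHalf

/-! ## Definitions -/

/-- `R_{a,b} = {0, ..., a-1} × {0, ..., b-1}` -/
def rect (a b : ℕ) : Set (ℕ × ℕ) := {x | x.1 < a ∧ x.2 < b}

/-- A zero-set is a finite union of rectangles `R_{a,b}` with `a, b ≥ 1`. -/
def IsZeroSet (Z : Set (ℕ × ℕ)) : Prop :=
  ∃ I : Finset (ℕ × ℕ), (∀ p ∈ I, 1 ≤ p.1 ∧ 1 ≤ p.2) ∧ Z = ⋃ p ∈ I, rect p.1 p.2

/-- `s(Z)`, the largest `s` with `R_{s,s} ⊆ Z`. -/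
noncomputable def side (Z : Set (ℕ × ℕ)) : ℕ := sSup {s | rect s s ⊆ Z}

/-- The number of points of `A` on the horizontal line through `x`. -/
noncomputable def row (x : ℕ × ℕ) (A : Set (ℕ × ℕ)) : ℕ∞ := {y | y ∈ A ∧ y.2 = x.2}.encard

/-- The number of points of `A` on the vertical line through `x`. -/
noncomputable def col (x : ℕ × ℕ) (A : Set (ℕ × ℕ)) : ℕ∞ := {y | y ∈ A ∧ y.1 = x.1}.encard

/-- A weakly decreasing sequence of nonnegative integers with finitely many nonzero terms. -/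
def IsEnh (r : ℕ → ℕ) : Prop := Antitone r ∧ {j | r j ≠ 0}.Finite

/-- The enhanced growth transformation: `x = (i, j)` is added to `A` unless
`(row(x, A) + r_j, col(x, A) + c_i)` is a point of `Z`. -/
def Ten (Z : Set (ℕ × ℕ)) (r c : ℕ → ℕ) (A : Set (ℕ × ℕ)) : Set (ℕ × ℕ) :=
  A ∪ {x | ¬ ∃ u v : ℕ, (u, v) ∈ Z ∧ row x A + r x.2 = u ∧ col x A + c x.1 = v}

/-- The pair `(r, c)` spans for `Z`. -/
def Spans (Z : Set (ℕ × ℕ)) (r c : ℕ → ℕ) : Prop :=
  ⋃ t : ℕ, (Ten Z r c)^[t] ∅ = Set.univ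

/-- The enhanced spanning time (`⊤` if there is no such time). -/
noncomputable def tau (Z : Set (ℕ × ℕ)) (r c : ℕ → ℕ) : ℕ∞ :=
  ⨅ (t : ℕ) (_ : 1 ≤ t ∧ (Ten Z r c)^[t] ∅ = Set.univ), (t : ℕ∞)

/-- `μ_en(Z)`: the supremum of the enhanced spanning times over all spanning pairs. -/
noncomputable def muEn (Z : Set (ℕ × ℕ)) : ℕ∞ :=
  ⨆ (r : ℕ → ℕ) (c : ℕ → ℕ) (_ : IsEnh r ∧ IsEnh c ∧ Spans Z r c), tau Z r c

/-- The exponent `α_c^min`. -/
noncomputable def alphaMin : ℝ :=
  sInf {α : ℝ | 0 < α ∧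
    ⨅ (Z : Set (ℕ × ℕ)) (_ : IsZeroSet Z ∧ Z.Nonempty),
      ((muEn Z : ℕ∞) : ENNReal) / ((side Z : ℕ) : ENNReal) ^ α = 0}

/-! ## Basic facts -/

theorem rect_lower (a b : ℕ) : IsLowerSet (rect a b) := by
  rintro ⟨x1, x2⟩ ⟨y1, y2⟩ h ⟨h1, h2⟩
  rw [Prod.mk_le_mk] at h
  exact ⟨lt_of_le_of_lt h.1 h1, lt_of_le_of_lt h.2 h2⟩

theorem zero_lower {Z : Set (ℕ × ℕ)} (hZ : IsZeroSet Z) : IsLowerSet Z := by
  obtain ⟨I, -, rfl⟩ := hZ
  exact isLowerSet_iUnion₂ fun p _ => rect_lower p.1 p.2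

theorem zero_bdd {Z : Set (ℕ × ℕ)} (hZ : IsZeroSet Z) : ∃ B, Z ⊆ rect B B := by
  obtain ⟨I, -, rfl⟩ := hZ
  refine ⟨∑ p ∈ I, (p.1 + p.2), ?_⟩
  intro x hx
  simp only [Set.mem_iUnion] at hx
  obtain ⟨p, hp, h1, h2⟩ := hx
  have h3 := Finset.single_le_sum (f := fun p : ℕ × ℕ => p.1 + p.2) (fun _ _ => Nat.zero_le _) hp
  exact ⟨by omega, by omega⟩

theorem row_le_of {A : Set (ℕ × ℕ)} {i j m : ℕ} (h : ∀ i', (i', j) ∈ A → i' < m) :
    row (i, j) A ≤ m := by
  unfold row
  have h1 : {y : ℕ × ℕ | y ∈ A ∧ y.2 = (i, j).2} ⊆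
      ((Finset.range m).image (fun k => (k, j)) : Finset (ℕ × ℕ)) := by
    rintro ⟨a, b⟩ ⟨h1, h2⟩
    simp only at h2
    subst h2
    simp only [Finset.coe_image, Set.mem_image, Finset.coe_range, Set.mem_Iio]
    exact ⟨a, h a h1, rfl⟩
  refine le_trans (Set.encard_le_encard h1) ?_
  rw [Set.encard_coe_eq_coe_finsetCard]
  exact_mod_cast le_trans Finset.card_image_le (by simp)

theorem col_le_of {A : Set (ℕ × ℕ)} {i j m : ℕ} (h : ∀ j', (i, j') ∈ A → j' < m) :
    col (i, j) A ≤ m := by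
  unfold col
  have h1 : {y : ℕ × ℕ | y ∈ A ∧ y.1 = (i, j).1} ⊆
      ((Finset.range m).image (fun k => (i, k)) : Finset (ℕ × ℕ)) := by
    rintro ⟨a, b⟩ ⟨h1, h2⟩
    simp only at h2
    subst h2
    simp only [Finset.coe_image, Set.mem_image, Finset.coe_range, Set.mem_Iio]
    exact ⟨b, h b h1, rfl⟩
  refine le_trans (Set.encard_le_encard h1) ?_
  rw [Set.encard_coe_eq_coe_finsetCard]
  exact_mod_cast le_trans Finset.card_image_le (by simp)

theorem le_row_of {A : Set (ℕ × ℕ)} {i j m : ℕ} (h : ∀ i', i' < m → (i', j) ∈ A) :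
    (m : ℕ∞) ≤ row (i, j) A := by
  unfold row
  have h1 : (((Finset.range m).image (fun k => (k, j)) : Finset (ℕ × ℕ)) : Set (ℕ × ℕ)) ⊆
      {y : ℕ × ℕ | y ∈ A ∧ y.2 = (i, j).2} := by
    intro y hy
    simp only [Finset.coe_image, Set.mem_image, Finset.coe_range, Set.mem_Iio] at hy
    obtain ⟨k, hk, rfl⟩ := hy
    exact ⟨h k hk, rfl⟩
  refine le_trans ?_ (Set.encard_le_encard h1)
  rw [Set.encard_coe_eq_coe_finsetCard, Finset.card_image_of_injective _
    (fun a b hab => congrArg Prod.fst hab), Finset.card_range]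

theorem le_col_of {A : Set (ℕ × ℕ)} {i j m : ℕ} (h : ∀ j', j' < m → (i, j') ∈ A) :
    (m : ℕ∞) ≤ col (i, j) A := by
  unfold col
  have h1 : (((Finset.range m).image (fun k => (i, k)) : Finset (ℕ × ℕ)) : Set (ℕ × ℕ)) ⊆
      {y : ℕ × ℕ | y ∈ A ∧ y.1 = (i, j).1} := by
    intro y hy
    simp only [Finset.coe_image, Set.mem_image, Finset.coe_range, Set.mem_Iio] at hy
    obtain ⟨k, hk, rfl⟩ := hy
    exact ⟨h k hk, rfl⟩
  refine le_trans ?_ (Set.encard_le_encard h1)
  rw [Set.encard_coe_eq_coe_finsetCard, Finset.card_image_of_injective _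
    (fun a b hab => congrArg Prod.snd hab), Finset.card_range]

/-- a point which is not added -/
theorem notMem_Ten {Z : Set (ℕ × ℕ)} (hZ : IsLowerSet Z) {r c : ℕ → ℕ} {A : Set (ℕ × ℕ)}
    {i j a b u v : ℕ} (hA : (i, j) ∉ A) (ha : row (i, j) A ≤ a) (hb : col (i, j) A ≤ b)
    (hu : a + r j ≤ u) (hv : b + c i ≤ v) (huv : (u, v) ∈ Z) : (i, j) ∉ Ten Z r c A := by
  rintro (h | h)
  · exact hA h
  · apply h
    obtain ⟨a', ha'⟩ : ∃ a' : ℕ, row (i, j) A = a' :=
      ENat.ne_top_iff_exists.1 (ne_top_of_le_ne_top (ENat.natCast_ne_top a) ha) |>.imp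
        fun _ h => h.symm
    obtain ⟨b', hb'⟩ : ∃ b' : ℕ, col (i, j) A = b' :=
      ENat.ne_top_iff_exists.1 (ne_top_of_le_ne_top (ENat.natCast_ne_top b) hb) |>.imp
        fun _ h => h.symm
    rw [ha'] at ha
    rw [hb'] at hb
    have ha2 : a' ≤ a := by exact_mod_cast ha
    have hb2 : b' ≤ b := by exact_mod_cast hb
    refine ⟨a' + r j, b' + c i, hZ ?_ huv, ?_, ?_⟩
    · rw [Prod.mk_le_mk]
      exact ⟨by omega, by omega⟩
    · rw [ha']; push_cast; rfl
    · rw [hb']; push_cast; rfl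

theorem Ten_lower {Z : Set (ℕ × ℕ)} (hZ : IsLowerSet Z) {r c : ℕ → ℕ} (hr : Antitone r)
    (hc : Antitone c) {A : Set (ℕ × ℕ)} (hA : IsLowerSet A) : IsLowerSet (Ten Z r c A) := by
  rintro ⟨i, j⟩ ⟨i', j'⟩ hle hx
  rw [Prod.mk_le_mk] at hle
  by_contra hy
  have hyA : (i', j') ∉ A := fun h => hy (Or.inl h)
  have hy2 : ∃ u v : ℕ, (u, v) ∈ Z ∧ row (i', j') A + r j' = u ∧ col (i', j') A + c i' = v := by
    by_contra h
    exact hy (Or.inr h)
  obtain ⟨u, v, huv, h1, h2⟩ := hy2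
  have hrow : row (i, j) A ≤ row (i', j') A := by
    unfold row
    apply Set.encard_le_encard_of_injOn (f := fun y => (y.1, j'))
    · rintro ⟨a, b⟩ ⟨h3, h4⟩
      simp only at h4
      subst h4
      exact ⟨hA (show (a, j') ≤ (a, b) from Prod.mk_le_mk.2 ⟨le_rfl, hle.2⟩) h3, rfl⟩
    · rintro ⟨a, b⟩ ⟨-, h4⟩ ⟨a', b'⟩ ⟨-, h4'⟩ h5
      simp only at h4 h4' h5
      rw [Prod.mk.injEq] at h5 ⊢
      exact ⟨h5.1, h4.trans h4'.symm⟩
  have hcol : col (i, j) A ≤ col (i', j') A := by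
    unfold col
    apply Set.encard_le_encard_of_injOn (f := fun y => (i', y.2))
    · rintro ⟨a, b⟩ ⟨h3, h4⟩
      simp only at h4
      subst h4
      exact ⟨hA (show (i', b) ≤ (a, b) from Prod.mk_le_mk.2 ⟨hle.1, le_rfl⟩) h3, rfl⟩
    · rintro ⟨a, b⟩ ⟨-, h4⟩ ⟨a', b'⟩ ⟨-, h4'⟩ h5
      simp only at h4 h4' h5
      rw [Prod.mk.injEq] at h5 ⊢
      exact ⟨h4.trans h4'.symm, h5.2⟩
  have h3 : row (i', j') A ≠ ⊤ := by
    intro h
    rw [h] at h1
    simp at h1
  have h4 : col (i', j') A ≠ ⊤ := by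
    intro h
    rw [h] at h2
    simp at h2
  obtain ⟨a, ha⟩ := ENat.ne_top_iff_exists.1 h3
  obtain ⟨b, hb⟩ := ENat.ne_top_iff_exists.1 h4
  rw [← ha] at h1 hrow
  rw [← hb] at h2 hcol
  have hxA : (i, j) ∉ A := fun h => hyA (hA (Prod.mk_le_mk.2 hle) h)
  have h5 : a + r j' = u := by exact_mod_cast h1
  have h6 : b + c i' = v := by exact_mod_cast h2
  have h7 := hr hle.2
  have h8 := hc hle.1
  exact notMem_Ten hZ hxA hrow hcol (by omega) (by omega) huv hx

theorem iter_lower {Z : Set (ℕ × ℕ)} (hZ : IsLowerSet Z) {r c : ℕ → ℕ} (hr : Antitone r)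
    (hc : Antitone c) (t : ℕ) : IsLowerSet ((Ten Z r c)^[t] ∅) := by
  induction t with
  | zero => exact isLowerSet_empty
  | succ t ih =>
    rw [Function.iterate_succ_apply']
    exact Ten_lower hZ hr hc ih

theorem iter_mono (Z : Set (ℕ × ℕ)) (r c : ℕ → ℕ) {s t : ℕ} (h : s ≤ t) :
    (Ten Z r c)^[s] ∅ ⊆ (Ten Z r c)^[t] ∅ := by
  induction t, h using Nat.le_induction with
  | base => exact subset_rfl
  | succ t _ ih =>
    rw [Function.iterate_succ_apply']
    exact ih.trans Set.subset_union_left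

/-- the necessary condition for spanning -/
theorem spans_notMem {Z : Set (ℕ × ℕ)} (hZ : IsLowerSet Z) {r c : ℕ → ℕ} (hr : Antitone r)
    (hc : Antitone c) (hs : Spans Z r c) (i j : ℕ) : (i + r j, j + c i) ∉ Z := by
  intro hmem
  have h1 : ∀ t, (i, j) ∉ (Ten Z r c)^[t] ∅ := by
    intro t
    induction t with
    | zero => simp
    | succ t ih =>
      rw [Function.iterate_succ_apply']
      have hl := iter_lower hZ hr hc t
      apply notMem_Ten hZ ih (a := i) (b := j) _ _ le_rfl le_rfl hmem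
      · apply row_le_of
        intro i' hi'
        by_contra hlt
        exact ih (hl (show (i, j) ≤ (i', j) from Prod.mk_le_mk.2 ⟨by omega, le_rfl⟩) hi')
      · apply col_le_of
        intro j' hj'
        by_contra hlt
        exact ih (hl (show (i, j) ≤ (i, j') from Prod.mk_le_mk.2 ⟨le_rfl, by omega⟩) hj')
  have h2 : (i, j) ∈ ⋃ t : ℕ, (Ten Z r c)^[t] ∅ := by
    rw [hs]
    exact Set.mem_univ _
  rw [Set.mem_iUnion] at h2
  obtain ⟨t, ht⟩ := h2
  exact h1 t ht

/-- the condition is sufficient -/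
theorem spans_of {Z : Set (ℕ × ℕ)} (hZ : IsLowerSet Z) {r c : ℕ → ℕ}
    (h : ∀ i j, (i + r j, j + c i) ∉ Z) : Spans Z r c := by
  have h1 : ∀ n, ∀ i j, i + j = n → (i, j) ∈ (Ten Z r c)^[n + 1] ∅ := by
    intro n
    induction n using Nat.strong_induction_on with
    | _ n ih =>
      intro i j hij
      rw [Function.iterate_succ_apply']
      right
      rintro ⟨u, v, huv, hu, hv⟩
      have h2 : (i : ℕ∞) ≤ row (i, j) ((Ten Z r c)^[n] ∅) := by
        apply le_row_of
        intro i' hi'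
        exact iter_mono Z r c (show i' + j + 1 ≤ n by omega) (ih (i' + j) (by omega) i' j rfl)
      have h3 : (j : ℕ∞) ≤ col (i, j) ((Ten Z r c)^[n] ∅) := by
        apply le_col_of
        intro j' hj'
        exact iter_mono Z r c (show i + j' + 1 ≤ n by omega) (ih (i + j') (by omega) i j' rfl)
      apply h i j
      apply hZ _ huv
      rw [Prod.mk_le_mk]
      constructor
      · have : ((i + r j : ℕ) : ℕ∞) ≤ u := by
          rw [← hu]
          push_cast
          gcongr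
        exact_mod_cast this
      · have : ((j + c i : ℕ) : ℕ∞) ≤ v := by
          rw [← hv]
          push_cast
          gcongr
        exact_mod_cast this
  unfold Spans
  rw [Set.eq_univ_iff_forall]
  rintro ⟨i, j⟩
  rw [Set.mem_iUnion]
  exact ⟨_, h1 (i + j) i j rfl⟩

theorem tau_ge {Z : Set (ℕ × ℕ)} {r c : ℕ → ℕ} {t : ℕ} {x : ℕ × ℕ}
    (h : x ∉ (Ten Z r c)^[t] ∅) : ((t + 1 : ℕ) : ℕ∞) ≤ tau Z r c := by
  unfold tau
  refine le_iInf₂ fun t' ht' => ?_
  by_contra hc
  have h1 : t' < t + 1 := by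
    rw [not_le] at hc
    exact_mod_cast hc
  apply h
  apply iter_mono Z r c (show t' ≤ t by omega)
  rw [ht'.2]
  exact Set.mem_univ _

theorem muEn_ge {Z : Set (ℕ × ℕ)} (hZ : IsLowerSet Z) {r c : ℕ → ℕ} (hr : IsEnh r)
    (hc : IsEnh c) (h : ∀ i j, (i + r j, j + c i) ∉ Z) {t : ℕ} {x : ℕ × ℕ}
    (hx : x ∉ (Ten Z r c)^[t] ∅) : ((t + 1 : ℕ) : ℕ∞) ≤ muEn Z := by
  unfold muEn
  exact le_trans (tau_ge hx)
    (le_iSup₂_of_le r c (le_iSup_of_le ⟨hr, hc, spans_of hZ h⟩ le_rfl))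

/-! ## The upper bound -/

/-- the zero-sets with small maximal spanning time -/
def ZK (κ : ℕ) : Set (ℕ × ℕ) :=
  ⋃ p ∈ (Finset.Icc 1 κ).image (fun q => (6 * κ * (κ + 1 - q), q * (q + 6 * κ))), rect p.1 p.2

theorem mem_ZK (κ u v : ℕ) : (u, v) ∈ ZK κ ↔
    ∃ q, 1 ≤ q ∧ q ≤ κ ∧ u < 6 * κ * (κ + 1 - q) ∧ v < q * (q + 6 * κ) := by
  unfold ZK rect
  simp only [Set.mem_iUnion, Finset.mem_image, Finset.mem_Icc, Set.mem_ofPred_eq, exists_prop]
  constructor
  · rintro ⟨p, ⟨q, hq, rfl⟩, h1, h2⟩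
    exact ⟨q, hq.1, hq.2, h1, h2⟩
  · rintro ⟨q, h1, h2, h3, h4⟩
    exact ⟨_, ⟨q, ⟨h1, h2⟩, rfl⟩, h3, h4⟩

theorem ZK_zero (κ : ℕ) (hκ : 1 ≤ κ) : IsZeroSet (ZK κ) := by
  refine ⟨_, ?_, rfl⟩
  intro p hp
  rw [Finset.mem_image] at hp
  obtain ⟨q, hq, rfl⟩ := hp
  rw [Finset.mem_Icc] at hq
  constructor
  · show 0 < 6 * κ * (κ + 1 - q)
    apply Nat.mul_pos (by omega) (by omega)
  · show 0 < q * (q + 6 * κ)
    apply Nat.mul_pos (by omega) (by omega)

open Pool.Agent.helper36.SpanPath Pool.Agent.helper36.SpanCorner in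
theorem dyn (κ : ℕ) (hκ : 1 ≤ κ) {r c : ℕ → ℕ} (hr : Antitone r) (hc : Antitone c)
    (hs : Spans (ZK κ) r c) : Dyn r c κ (fun t i j => (i, j) ∉ (Ten (ZK κ) r c)^[t] ∅) := by
  have hZ := zero_lower (ZK_zero κ hκ)
  refine ⟨hκ, ?_, ?_⟩
  · intro i j q hq1 hqκ hlt
    by_contra hcon
    push Not at hcon
    apply spans_notMem hZ hr hc hs i j
    rw [mem_ZK]
    obtain ⟨q, rfl⟩ : ∃ q' : ℕ, (q' : ℤ) = q := ⟨q.toNat, by omega⟩
    have hqκ' : q ≤ κ := by exact_mod_cast hqκ
    refine ⟨q, by exact_mod_cast hq1, hqκ', ?_, ?_⟩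
    · zify [show q ≤ κ + 1 by omega]
      exact hlt
    · unfold yy at hcon
      zify
      exact hcon
  · intro t i j hu
    rw [Function.iterate_succ_apply'] at hu
    have h1 : (i, j) ∉ (Ten (ZK κ) r c)^[t] ∅ := fun h => hu (Or.inl h)
    have h2 : ∃ u v : ℕ, (u, v) ∈ ZK κ ∧ row (i, j) ((Ten (ZK κ) r c)^[t] ∅) + r j = u ∧
        col (i, j) ((Ten (ZK κ) r c)^[t] ∅) + c i = v := by
      by_contra h
      exact hu (Or.inr h)
    obtain ⟨u, v, huv, h3, h4⟩ := h2
    have h5 : row (i, j) ((Ten (ZK κ) r c)^[t] ∅) ≠ ⊤ := by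
      intro h
      rw [h] at h3
      simp at h3
    have h6 : col (i, j) ((Ten (ZK κ) r c)^[t] ∅) ≠ ⊤ := by
      intro h
      rw [h] at h4
      simp at h4
    obtain ⟨a, ha⟩ := ENat.ne_top_iff_exists.1 h5
    obtain ⟨b, hb⟩ := ENat.ne_top_iff_exists.1 h6
    rw [← ha] at h3
    rw [← hb] at h4
    have h7 : a + r j = u := by exact_mod_cast h3
    have h8 : b + c i = v := by exact_mod_cast h4
    rw [mem_ZK] at huv
    obtain ⟨q, hq1, hqκ, hu', hv'⟩ := huv
    have hl := iter_lower hZ hr hc t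
    refine ⟨q, a, b, by exact_mod_cast hq1, by exact_mod_cast hqκ, ?_, ?_, ?_, ?_⟩
    · rw [← h7] at hu'
      zify [show q ≤ κ + 1 by omega] at hu'
      exact hu'
    · rw [← h8] at hv'
      unfold yy
      zify at hv'
      exact hv'
    · intro i' hi' hmem
      have h9 : ((i' + 1 : ℕ) : ℕ∞) ≤ row (i, j) ((Ten (ZK κ) r c)^[t] ∅) := by
        apply le_row_of
        intro i'' hi''
        exact hl (show (i'', j) ≤ (i', j) from Prod.mk_le_mk.2 ⟨by omega, le_rfl⟩) hmem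
      rw [← ha] at h9
      have h10 : i' + 1 ≤ a := by exact_mod_cast h9
      omega
    · intro j' hj' hmem
      have h9 : ((j' + 1 : ℕ) : ℕ∞) ≤ col (i, j) ((Ten (ZK κ) r c)^[t] ∅) := by
        apply le_col_of
        intro j'' hj''
        exact hl (show (i, j'') ≤ (i, j') from Prod.mk_le_mk.2 ⟨le_rfl, by omega⟩) hmem
      rw [← hb] at h9
      have h10 : j' + 1 ≤ b := by exact_mod_cast h9
      omega

theorem muEn_ZK (κ : ℕ) (hκ : 1 ≤ κ) : muEn (ZK κ) ≤ ((160 * κ : ℕ) : ℕ∞) := by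
  unfold muEn
  refine iSup₂_le fun r c => iSup_le fun h => ?_
  unfold tau
  refine iInf₂_le (160 * κ) ⟨by omega, ?_⟩
  rw [Set.eq_univ_iff_forall]
  rintro ⟨i, j⟩
  by_contra hx
  have := Pool.Agent.helper36.SpanPath.time_bound (dyn κ hκ h.1.1 h.2.1.1 h.2.2) hx
  omega

theorem side_bdd {Z : Set (ℕ × ℕ)} (hZ : IsZeroSet Z) : BddAbove {s | rect s s ⊆ Z} := by
  obtain ⟨B, hB⟩ := zero_bdd hZ
  refine ⟨B, ?_⟩
  intro s hs
  by_contra hlt
  push Not at hlt
  have : (B, B) ∈ rect B B := hB (hs ⟨hlt, hlt⟩)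
  exact lt_irrefl _ this.1

theorem side_ZK (m : ℕ) (hm : 1 ≤ m) : m ^ 2 ≤ side (ZK (2 * m)) := by
  unfold side
  apply le_csSup (side_bdd (ZK_zero (2 * m) (by omega)))
  rintro ⟨u, v⟩ ⟨h1, h2⟩
  rw [mem_ZK]
  simp only at h1 h2
  refine ⟨m, hm, by omega, ?_, ?_⟩
  · have : 2 * m + 1 - m = m + 1 := by omega
    rw [this]
    nlinarith
  · nlinarith

/-! ## The lower bound -/

/-- row lengths -/
theorem exists_rho {Z : Set (ℕ × ℕ)} (hZ : IsZeroSet Z) :
    ∃ ρ : ℕ → ℕ, ∀ x j, (x, j) ∈ Z ↔ x < ρ j := by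
  classical
  obtain ⟨B, hB⟩ := zero_bdd hZ
  have hex : ∀ j, ∃ x, (x, j) ∉ Z := fun j => ⟨B, fun h => lt_irrefl _ (hB h).1⟩
  refine ⟨fun j => Nat.find (hex j), fun x j => ?_⟩
  constructor
  · intro h
    by_contra hlt
    exact Nat.find_spec (hex j) (zero_lower hZ (Prod.mk_le_mk.2 ⟨not_lt.1 hlt, le_rfl⟩) h)
  · intro h
    by_contra hn
    exact Nat.find_min (hex j) h hn

theorem process_one {Z : Set (ℕ × ℕ)} (hZ : IsZeroSet Z) (ρ : ℕ → ℕ)
    (hρ : ∀ x j, (x, j) ∈ Z ↔ x < ρ j) (J m : ℕ)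
    (hJ : m + 1 ≤ ((Finset.range (J + 1)).image ρ).card) : ((m + 1 : ℕ) : ℕ∞) ≤ muEn Z := by
  have hlow := zero_lower hZ
  obtain ⟨B, hB⟩ := zero_bdd hZ
  have hanti : Antitone ρ := by
    intro j j' hj
    by_contra hlt
    push Not at hlt
    have h1 : (ρ j, j') ∈ Z := (hρ _ _).2 hlt
    have h2 : (ρ j, j) ∈ Z := hlow (Prod.mk_le_mk.2 ⟨le_rfl, hj⟩) h1
    exact lt_irrefl _ ((hρ _ _).1 h2)
  have hr : IsEnh ρ := by
    refine ⟨hanti, (Set.finite_lt_nat B).subset ?_⟩
    intro j hj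
    have h1 : (0, j) ∈ Z := (hρ _ _).2 (Nat.pos_of_ne_zero hj)
    exact (hB h1).2
  have hc : IsEnh (fun _ => 0) := ⟨antitone_const, by simp⟩
  have key : ∀ t i j, (i, j) ∈ (Ten Z ρ (fun _ => 0))^[t] ∅ →
      ((Finset.range (j + 1)).image ρ).card ≤ t := by
    intro t
    induction t with
    | zero => intro i j h; simp at h
    | succ t ih =>
      intro i j hmem
      by_contra hcard
      push Not at hcard
      rw [Function.iterate_succ_apply'] at hmem
      have hnot : (i, j) ∉ (Ten Z ρ (fun _ => 0))^[t] ∅ := by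
        intro h
        have := ih i j h
        omega
      classical
      have hex : ∃ k, t + 1 ≤ ((Finset.range (k + 1)).image ρ).card := ⟨j, by omega⟩
      have hk1 := Nat.find_spec hex
      have hk2 := fun k' (h : k' < Nat.find hex) => Nat.find_min hex h
      have hkj : Nat.find hex ≤ j := Nat.find_min' hex (by omega)
      set k := Nat.find hex
      have hcardk : ((Finset.range k).image ρ).card ≤ t := by
        rcases Nat.eq_zero_or_pos k with h0 | h0
        · rw [h0]; simp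
        · have := hk2 (k - 1) (by omega)
          have e : k - 1 + 1 = k := by omega
          rw [e] at this
          omega
      have hρlt : ρ j < ρ k := by
        rcases lt_or_eq_of_le (hanti hkj) with h | h
        · exact h
        · exfalso
          have hsub : (Finset.range (j + 1)).image ρ ⊆ insert (ρ k) ((Finset.range k).image ρ) := by
            intro x hx
            rw [Finset.mem_image] at hx
            obtain ⟨a, ha, rfl⟩ := hx
            rw [Finset.mem_range] at ha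
            rw [Finset.mem_insert]
            by_cases hak : a < k
            · right
              exact Finset.mem_image_of_mem _ (Finset.mem_range.2 hak)
            · left
              have h1 := hanti (show a ≤ j by omega)
              have h2 := hanti (show k ≤ a by omega)
              omega
          have h1 := Finset.card_le_card hsub
          have h2 := Finset.card_insert_le (ρ k) ((Finset.range k).image ρ)
          omega
      refine notMem_Ten hlow (a := 0) (b := k) hnot ?_ ?_ le_rfl le_rfl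
        ((hρ (0 + ρ j) (k + 0)).2 (by simpa using hρlt)) hmem
      · apply row_le_of
        intro i' hi'
        have := ih i' j hi'
        omega
      · apply col_le_of
        intro j' hj'
        by_contra hge
        push Not at hge
        have h1 := ih i j' hj'
        have h2 : ((Finset.range (k + 1)).image ρ).card ≤ ((Finset.range (j' + 1)).image ρ).card :=
          Finset.card_le_card (Finset.image_subset_image (Finset.range_subset_range.2 (by omega)))
        omega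
  apply muEn_ge hlow hr hc (t := m) (x := (0, J))
  · intro i j h
    have h1 := (hρ _ _).1 h
    have h2 := hanti (show j ≤ j + 0 by omega)
    omega
  · intro h
    have := key m 0 J h
    omega

theorem process_two {Z : Set (ℕ × ℕ)} (hZ : IsZeroSet Z) (x y D : ℕ) (hxy : (x, y) ∈ Z)
    (hDx : D ≤ x + 1) (hDy : D ≤ y) (h1 : ∀ d, d ≤ D → (x + 1 + d, y - d) ∉ Z)
    (h2 : ∀ d, d ≤ D → (x + 1 - d, y + d) ∉ Z) : ((D + 1 : ℕ) : ℕ∞) ≤ muEn Z := by
  have hlow := zero_lower hZ
  obtain ⟨B, hB⟩ := zero_bdd hZ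
  let r : ℕ → ℕ := fun j => if j < B then x + 1 - min j D else 0
  let c : ℕ → ℕ := fun i => if i < B then y - min i D else 0
  have hr : IsEnh r := by
    constructor
    · intro j j' hj
      simp only [r]
      split_ifs <;> omega
    · refine (Set.finite_lt_nat B).subset ?_
      intro j hj
      by_contra hlt
      apply hj
      exact if_neg hlt
  have hc : IsEnh c := by
    constructor
    · intro j j' hj
      simp only [c]
      split_ifs <;> omega
    · refine (Set.finite_lt_nat B).subset ?_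
      intro j hj
      by_contra hlt
      apply hj
      exact if_neg hlt
  have hspan : ∀ i j, (i + r j, j + c i) ∉ Z := by
    intro i j hmem
    have h3 := hB hmem
    have h4 : i < B := lt_of_le_of_lt (Nat.le_add_right _ _) h3.1
    have h5 : j < B := lt_of_le_of_lt (Nat.le_add_right _ _) h3.2
    simp only [r, c, if_pos h4, if_pos h5] at hmem
    rcases le_total (min j D) (min i D) with h6 | h6
    · apply h1 (min i D - min j D) (by omega)
      apply hlow _ hmem
      rw [Prod.mk_le_mk]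
      omega
    · apply h2 (min j D - min i D) (by omega)
      apply hlow _ hmem
      rw [Prod.mk_le_mk]
      omega
  have key : ∀ m, m ≤ D → ∀ i j, (i, j) ∈ (Ten Z r c)^[m] ∅ → i < m ∨ j < m := by
    intro m
    induction m with
    | zero => intro _ i j h; simp at h
    | succ m ih =>
      intro hm i j hmem
      by_contra hcon
      push Not at hcon
      rw [Function.iterate_succ_apply'] at hmem
      have ih' := ih (by omega)
      have hnot : (i, j) ∉ (Ten Z r c)^[m] ∅ := by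
        intro h
        have := ih' i j h
        omega
      refine notMem_Ten hlow (a := m) (b := m) (u := x) (v := y) hnot ?_ ?_ ?_ ?_ hxy hmem
      · apply row_le_of
        intro i' hi'
        have := ih' i' j hi'
        omega
      · apply col_le_of
        intro j' hj'
        have := ih' i j' hj'
        omega
      · simp only [r]
        split_ifs <;> omega
      · simp only [c]
        split_ifs <;> omega
  apply muEn_ge hlow hr hc hspan (t := D) (x := (D, D))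
  intro h
  have := key D le_rfl D D h
  omega

/-- maximal elements of a zero-set -/
def Mx (Z : Set (ℕ × ℕ)) : Set (ℕ × ℕ) := {z | z ∈ Z ∧ (z.1 + 1, z.2) ∉ Z ∧ (z.1, z.2 + 1) ∉ Z}

theorem exists_Mx {Z : Set (ℕ × ℕ)} (hZ : IsZeroSet Z) (w : ℕ × ℕ) (hw : w ∈ Z) :
    ∃ z ∈ Mx Z, w ≤ z := by
  obtain ⟨B, hB⟩ := zero_bdd hZ
  by_contra hcon
  push Not at hcon
  have key : ∀ n, ∃ z ∈ Z, w ≤ z ∧ n ≤ z.1 + z.2 := by
    intro n
    induction n with
    | zero => exact ⟨w, hw, le_rfl, Nat.zero_le _⟩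
    | succ n ih =>
      obtain ⟨z, hz, hwz, hn⟩ := ih
      by_cases h1 : (z.1 + 1, z.2) ∈ Z
      · refine ⟨_, h1, le_trans hwz (Prod.mk_le_mk.2 ⟨by omega, le_rfl⟩), ?_⟩
        simp only
        omega
      · by_cases h2 : (z.1, z.2 + 1) ∈ Z
        · refine ⟨_, h2, le_trans hwz (Prod.mk_le_mk.2 ⟨le_rfl, by omega⟩), ?_⟩
          simp only
          omega
        · exact absurd hwz (hcon z ⟨hz, h1, h2⟩)
  obtain ⟨z, hz, -, hn⟩ := key (2 * B)
  have := hB hz
  have h1 := this.1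
  have h2 := this.2
  omega

theorem lower {Z : Set (ℕ × ℕ)} (hZ : IsZeroSet Z) (hne : Z.Nonempty) :
    ∃ k : ℕ, 1 ≤ k ∧ side Z ≤ k ^ 2 ∧ (k : ℕ∞) ≤ muEn Z := by
  classical
  have hlow := zero_lower hZ
  obtain ⟨B, hB⟩ := zero_bdd hZ
  obtain ⟨ρ, hρ⟩ := exists_rho hZ
  have hs1 : 1 ≤ side Z := by
    unfold side
    apply le_csSup (side_bdd hZ)
    rintro ⟨u, v⟩ ⟨h1, h2⟩
    obtain ⟨w, hw⟩ := hne
    apply hlow _ hw
    simp only at h1 h2
    have hu : u = 0 := by omega
    have hv : v = 0 := by omega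
    subst hu
    subst hv
    exact Prod.mk_le_mk.2 ⟨Nat.zero_le _, Nat.zero_le _⟩
  have hsub : rect (side Z) (side Z) ⊆ Z :=
    Nat.sSup_mem (s := {s | rect s s ⊆ Z}) ⟨0, by
      rintro ⟨u, v⟩ ⟨h1, -⟩
      exact absurd h1 (Nat.not_lt_zero _)⟩ (side_bdd hZ)
  set s := side Z
  obtain ⟨D, hD⟩ : ∃ D, D = Nat.sqrt s := ⟨_, rfl⟩
  have hD1 : D * D ≤ s := by rw [hD]; exact Nat.sqrt_le s
  have hD2 : s < (D + 1) * (D + 1) := by rw [hD]; exact Nat.lt_succ_sqrt s
  have hD0 : 1 ≤ D := by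
    by_contra h
    have : D = 0 := by omega
    rw [this] at hD2
    omega
  by_cases hP : ∃ x y, (x, y) ∈ Z ∧ D ≤ x + 1 ∧ D ≤ y ∧ (∀ d, d ≤ D → (x + 1 + d, y - d) ∉ Z) ∧
      (∀ d, d ≤ D → (x + 1 - d, y + d) ∉ Z)
  · obtain ⟨x, y, hxy, h1, h2, h3, h4⟩ := hP
    refine ⟨D + 1, by omega, ?_, process_two hZ x y D hxy h1 h2 h3 h4⟩
    rw [pow_two]
    exact hD2.le
  · push Not at hP
    -- the finite set of maximal elements
    have hfin : (Mx Z).Finite := by
      apply (((Set.finite_lt_nat B).prod (Set.finite_lt_nat B))).subset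
      intro z hz
      exact hB hz.1
    let F : Finset (ℕ × ℕ) := hfin.toFinset
    have hF : ∀ z, z ∈ F ↔ z ∈ Mx Z := fun z => hfin.mem_toFinset
    have chain : ∀ m, m * D ≤ s - 1 → ∃ z ∈ Mx Z, s - 1 ≤ z.1 + m * D ∧ s - 1 ≤ z.2 + m * D ∧
        m + 1 ≤ (F.filter (fun w => w.1 + w.2 ≤ z.1 + z.2)).card := by
      intro m
      induction m with
      | zero =>
        intro _
        obtain ⟨z, hz, hwz⟩ := exists_Mx hZ (s - 1, s - 1) (hsub ⟨by
          show s - 1 < s
          omega, by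
          show s - 1 < s
          omega⟩)
        have h1 := hwz.1
        have h2 := hwz.2
        simp only at h1 h2
        refine ⟨z, hz, by omega, by omega, ?_⟩
        rw [Nat.zero_add, Nat.one_le_iff_ne_zero, Finset.card_ne_zero]
        exact ⟨z, Finset.mem_filter.2 ⟨(hF z).2 hz, le_rfl⟩⟩
      | succ m ih =>
        intro hm
        have hm' : m * D + D ≤ s - 1 := by rw [← Nat.succ_mul]; exact hm
        obtain ⟨z, hz, h1, h2, h3⟩ := ih (by omega)
        have hw : ∃ w ∈ Z, z.1 + z.2 + 1 ≤ w.1 + w.2 ∧ z.1 ≤ w.1 + D ∧ z.2 ≤ w.2 + D := by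
          by_cases hall : ∀ d, d ≤ D → (z.1 + 1 + d, z.2 - d) ∉ Z
          · obtain ⟨d, hd, hmem⟩ := hP z.1 z.2 hz.1 (by omega) (by omega) hall
            refine ⟨_, hmem, ?_, ?_, ?_⟩ <;> simp only <;> omega
          · push Not at hall
            obtain ⟨d, hd, hmem⟩ := hall
            refine ⟨_, hmem, ?_, ?_, ?_⟩ <;> simp only <;> omega
        obtain ⟨w, hwZ, hw1, hw2, hw3⟩ := hw
        obtain ⟨z', hz', hwz'⟩ := exists_Mx hZ w hwZ
        have h4 := hwz'.1
        have h5 := hwz'.2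
        have e : (m + 1) * D = m * D + D := Nat.succ_mul m D
        refine ⟨z', hz', by rw [e]; omega, by rw [e]; omega, ?_⟩
        have hsub' : insert z' (F.filter (fun w => w.1 + w.2 ≤ z.1 + z.2)) ⊆
            F.filter (fun w => w.1 + w.2 ≤ z'.1 + z'.2) := by
          intro a ha
          rw [Finset.mem_insert] at ha
          rcases ha with rfl | ha
          · exact Finset.mem_filter.2 ⟨(hF _).2 hz', le_rfl⟩
          · rw [Finset.mem_filter] at ha ⊢
            exact ⟨ha.1, by omega⟩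
        have hcard := Finset.card_le_card hsub'
        rw [Finset.card_insert_of_notMem] at hcard
        · omega
        · intro hmem
          rw [Finset.mem_filter] at hmem
          omega
    obtain ⟨z, hz, -, -, hcard⟩ := chain ((s - 1) / D) (Nat.div_mul_le_self _ _)
    have hcardF : (s - 1) / D + 1 ≤ F.card :=
      le_trans hcard (Finset.card_le_card (Finset.filter_subset _ _))
    refine ⟨(s - 1) / D + 1, Nat.succ_pos _, ?_, ?_⟩
    · have h1 : s - 1 < D * ((s - 1) / D + 1) := by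
        have h2 := Nat.div_add_mod (s - 1) D
        have h3 := Nat.mod_lt (s - 1) (show 0 < D by omega)
        rw [Nat.mul_succ]
        omega
      have h4 : D ≤ (s - 1) / D + 1 := by
        have h5 : D - 1 ≤ (s - 1) / D := by
          rw [Nat.le_div_iff_mul_le (by omega)]
          have : (D - 1) * D = D * D - D := by
            rw [Nat.sub_mul, Nat.one_mul]
          rw [this]
          omega
        omega
      have h6 : D * ((s - 1) / D + 1) ≤ ((s - 1) / D + 1) * ((s - 1) / D + 1) :=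
        Nat.mul_le_mul_right _ h4
      rw [pow_two]
      omega
    · apply process_one hZ ρ hρ B
      refine le_trans hcardF ?_
      have hinj : Set.InjOn (fun z : ℕ × ℕ => z.1 + 1) (F : Set (ℕ × ℕ)) := by
        intro a ha b hb hab
        simp only at hab
        have ha' := (hF a).1 ha
        have hb' := (hF b).1 hb
        have h1 : a.1 = b.1 := by omega
        rcases lt_trichotomy a.2 b.2 with h | h | h
        · exfalso
          apply ha'.2.2
          apply hlow _ hb'.1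
          exact ⟨h1.le, h⟩
        · exact Prod.ext h1 h
        · exfalso
          apply hb'.2.2
          apply hlow _ ha'.1
          exact ⟨h1.ge, h⟩
      rw [← Finset.card_image_of_injOn hinj]
      apply Finset.card_le_card
      intro v hv
      rw [Finset.mem_image] at hv
      obtain ⟨a, ha, rfl⟩ := hv
      have ha' := (hF a).1 ha
      rw [Finset.mem_image]
      refine ⟨a.2, ?_, ?_⟩
      · rw [Finset.mem_range]
        have := (hB ha'.1).2
        omega
      · have h1 : a.1 < ρ a.2 := (hρ a.1 a.2).1 ha'.1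
        have h2 : ¬ (a.1 + 1 < ρ a.2) := fun h => ha'.2.1 ((hρ _ _).2 h)
        omega

/-! ## The exponent -/

theorem small_alpha (α : ℝ) (hα0 : 0 < α) (hα : α ≤ 1 / 2) :
    (1 : ENNReal) ≤ ⨅ (Z : Set (ℕ × ℕ)) (_ : IsZeroSet Z ∧ Z.Nonempty),
      ((muEn Z : ℕ∞) : ENNReal) / ((side Z : ℕ) : ENNReal) ^ α := by
  refine le_iInf₂ fun Z hZ => ?_
  obtain ⟨k, hk1, hk2, hk3⟩ := lower hZ.1 hZ.2
  have h1 : ((k : ℕ) : ENNReal) ≤ ((muEn Z : ℕ∞) : ENNReal) := by
    have := ENat.toENNReal_le.2 hk3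
    simpa using this
  have h2 : ((side Z : ℕ) : ENNReal) ^ α ≤ (k : ENNReal) := by
    calc ((side Z : ℕ) : ENNReal) ^ α ≤ ((k ^ 2 : ℕ) : ENNReal) ^ α :=
          ENNReal.rpow_le_rpow (by exact_mod_cast hk2) hα0.le
      _ = (k : ENNReal) ^ (2 * α) := by
          push_cast
          rw [← ENNReal.rpow_natCast, ← ENNReal.rpow_mul]
          norm_num
      _ ≤ (k : ENNReal) ^ (1 : ℝ) := by
          apply ENNReal.rpow_le_rpow_of_exponent_le
          · exact_mod_cast hk1
          · linarith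
      _ = k := ENNReal.rpow_one _
  have hkne : (k : ENNReal) ≠ 0 := by
    have : k ≠ 0 := by omega
    exact_mod_cast this
  calc (1 : ENNReal) = (k : ENNReal) / k := (ENNReal.div_self hkne (ENNReal.natCast_ne_top k)).symm
    _ ≤ ((muEn Z : ℕ∞) : ENNReal) / ((side Z : ℕ) : ENNReal) ^ α := ENNReal.div_le_div h1 h2

theorem large_alpha (α : ℝ) (hα : 1 / 2 < α) :
    ⨅ (Z : Set (ℕ × ℕ)) (_ : IsZeroSet Z ∧ Z.Nonempty),
      ((muEn Z : ℕ∞) : ENNReal) / ((side Z : ℕ) : ENNReal) ^ α = 0 := by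
  have key : ∀ m : ℕ, ⨅ (Z : Set (ℕ × ℕ)) (_ : IsZeroSet Z ∧ Z.Nonempty),
      ((muEn Z : ℕ∞) : ENNReal) / ((side Z : ℕ) : ENNReal) ^ α ≤
      ENNReal.ofReal (320 * ((m + 1 : ℕ) : ℝ) ^ (-(2 * α - 1))) := by
    intro m
    have hz := ZK_zero (2 * (m + 1)) (by omega)
    have hside := side_ZK (m + 1) (by omega)
    have hne : (ZK (2 * (m + 1))).Nonempty := by
      refine ⟨(0, 0), (mem_ZK _ _ _).2 ⟨1, le_rfl, by omega, ?_, ?_⟩⟩
      · apply Nat.mul_pos (by omega) (by omega)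
      · omega
    refine le_trans (iInf₂_le (ZK (2 * (m + 1))) ⟨hz, hne⟩) ?_
    have h1 : ((muEn (ZK (2 * (m + 1))) : ℕ∞) : ENNReal) ≤ ENNReal.ofReal (320 * (m + 1 : ℕ)) := by
      have h2 := ENat.toENNReal_le.2 (muEn_ZK (2 * (m + 1)) (by omega))
      refine le_trans h2 ?_
      rw [ENNReal.ofReal_mul (by norm_num), ENNReal.ofReal_natCast]
      rw [ENat.toENNReal_coe]
      have : ENNReal.ofReal 320 = ((320 : ℕ) : ENNReal) := by
        rw [← ENNReal.ofReal_natCast]
        norm_num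
      rw [this]
      exact_mod_cast (by omega : 160 * (2 * (m + 1)) ≤ 320 * (m + 1))
    have hpos : (0 : ℝ) < ((m + 1 : ℕ) : ℝ) := by positivity
    have h3 : ENNReal.ofReal (((m + 1 : ℕ) : ℝ) ^ (2 * α)) ≤
        ((side (ZK (2 * (m + 1))) : ℕ) : ENNReal) ^ α := by
      calc ENNReal.ofReal (((m + 1 : ℕ) : ℝ) ^ (2 * α))
          = ENNReal.ofReal ((((m + 1) ^ 2 : ℕ) : ℝ) ^ α) := by
            congr 1
            rw [Real.rpow_mul hpos.le]
            congr 1
            push_cast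
            norm_num
        _ = (((m + 1) ^ 2 : ℕ) : ENNReal) ^ α := by
            rw [← ENNReal.ofReal_rpow_of_pos (by positivity), ENNReal.ofReal_natCast]
        _ ≤ ((side (ZK (2 * (m + 1))) : ℕ) : ENNReal) ^ α := by
            apply ENNReal.rpow_le_rpow _ (by linarith)
            exact_mod_cast hside
    calc ((muEn (ZK (2 * (m + 1))) : ℕ∞) : ENNReal) /
          ((side (ZK (2 * (m + 1))) : ℕ) : ENNReal) ^ α
        ≤ ENNReal.ofReal (320 * (m + 1 : ℕ)) / ENNReal.ofReal (((m + 1 : ℕ) : ℝ) ^ (2 * α)) :=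
          ENNReal.div_le_div h1 h3
      _ = ENNReal.ofReal (320 * (m + 1 : ℕ) / ((m + 1 : ℕ) : ℝ) ^ (2 * α)) := by
          rw [ENNReal.ofReal_div_of_pos (Real.rpow_pos_of_pos hpos _)]
      _ = ENNReal.ofReal (320 * ((m + 1 : ℕ) : ℝ) ^ (-(2 * α - 1))) := by
          congr 1
          have e : -(2 * α - 1) = 1 - 2 * α := by ring
          rw [e, Real.rpow_sub hpos, Real.rpow_one]
          ring
  have hlim : Filter.Tendsto (fun m : ℕ => ENNReal.ofReal (320 * ((m + 1 : ℕ) : ℝ) ^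
      (-(2 * α - 1)))) Filter.atTop (nhds 0) := by
    rw [← ENNReal.ofReal_zero]
    apply ENNReal.tendsto_ofReal
    have h1 := tendsto_rpow_neg_atTop (show 0 < 2 * α - 1 by linarith)
    have h2 : Filter.Tendsto (fun m : ℕ => ((m + 1 : ℕ) : ℝ)) Filter.atTop Filter.atTop :=
      tendsto_natCast_atTop_atTop.comp (Filter.tendsto_add_atTop_nat 1)
    have h3 := (h1.comp h2).const_mul 320
    simpa using h3
  exact le_antisymm (ge_of_tendsto' hlim key) bot_le

/-- The critical exponent of the minimal enhanced spanning time is `1/2`. -/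
theorem result : alphaMin = 1 / 2 := by
  unfold alphaMin
  apply le_antisymm
  · apply le_of_forall_gt_imp_ge_of_dense
    intro a ha
    apply csInf_le
    · exact ⟨0, fun x hx => hx.1.le⟩
    · exact ⟨by linarith, large_alpha a ha⟩
  · apply le_csInf
    · exact ⟨1, by norm_num, large_alpha 1 (by norm_num)⟩
    · intro α hα
      by_contra hlt
      push Not at hlt
      have h1 := small_alpha α hα.1 hlt.le
      rw [hα.2] at h1
      simp at h1

end Pool.Agent.Results.MP_3b4555_co.AlphaMinEqHalf
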